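import Pool.Agent.Y122.TQ.Defs

/-!
# Project TQ, part MSR: mean squares of the remainders
-/

set_option autoImplicit false

namespace Pool.Agent.Y606.TQ.Msr

open Finset Filter Topology MeasureTheory
open Pool.Agent.H306R2.RZ (js)
open Pool.Agent.H306R2.RG
open Pool.Agent.Y122.TQ

noncomputable section

theorem js_abs (k : ℤ) (n : ℕ) : |js k n| ≤ 1 := by
  unfold js
  rcases jacobiSym.trichotomy k n with h | h | h <;> rw [h] <;> norm_num

theorem eta_abs {φ : FD} (hφ : Fam φ) : |φ.η| ≤ 1 := by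
  obtain ⟨ε, hε, h⟩ := hφ
  rcases h with rfl | rfl | rfl | rfl
  · show |(0:ℝ)| ≤ 1
    norm_num
  · show |(0:ℝ)| ≤ 1
    norm_num
  · show |(if (1:ℤ) = 1 then (1:ℝ) else -1)| ≤ 1
    norm_num
  · show |(if (5:ℤ) = 1 then (1:ℝ) else -1)| ≤ 1
    norm_num

theorem fam_r {φ : FD} (hφ : Fam φ) : 1 ≤ φ.r ∧ φ.r ≤ 8 := by
  obtain ⟨ε, hε, h⟩ := hφ
  rcases h with rfl | rfl | rfl | rfl
  · exact ⟨by show (1 : ℕ) ≤ 8; norm_num, by show (8 : ℕ) ≤ 8; norm_num⟩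
  · exact ⟨by show (1 : ℕ) ≤ 4; norm_num, by show (4 : ℕ) ≤ 8; norm_num⟩
  · exact ⟨by show (1 : ℕ) ≤ 1; norm_num, by show (1 : ℕ) ≤ 8; norm_num⟩
  · exact ⟨by show (1 : ℕ) ≤ 1; norm_num, by show (1 : ℕ) ≤ 8; norm_num⟩

theorem cf_abs {φ : FD} (hφ : Fam φ) (d n : ℕ) : |cf φ d n| ≤ 1 := by
  unfold cf
  rw [abs_mul, abs_pow]
  have h1 : |φ.η| ^ (n.factorization 2) ≤ 1 := pow_le_one₀ (abs_nonneg _) (eta_abs hφ)
  have h2 : |jo φ d (n / 2 ^ (n.factorization 2))| ≤ 1 := by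
    unfold jo
    split_ifs
    · exact js_abs _ _
    · simp
  exact mul_le_one₀ h1 (abs_nonneg _) h2

theorem summable_vt {φ : FD} (hφ : Fam φ) (d : ℕ) {v : ℝ} (hv : 0 < v) :
    Summable (fun n : ℕ => cf φ d (n + 1) * ((n : ℝ) + 1) ^ φ.a *
      Real.exp (-(Real.pi * ((n : ℝ) + 1) ^ 2 * v))) := by
  obtain ⟨c, hc⟩ : ∃ c : ℝ, c = Real.pi * v := ⟨_, rfl⟩
  have hc0 : 0 < c := by rw [hc]; exact mul_pos Real.pi_pos hv
  have hg : Summable (fun n : ℕ => (((n + 1 : ℕ) : ℝ)) ^ φ.a *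
      Real.exp (-c * ((n + 1 : ℕ) : ℝ))) :=
    (summable_nat_add_iff 1).2 (Real.summable_pow_mul_exp_neg_nat_mul φ.a hc0)
  refine Summable.of_norm_bounded hg (fun n => ?_)
  have h0 : (0 : ℝ) ≤ (n : ℝ) := Nat.cast_nonneg n
  rw [Real.norm_eq_abs, abs_mul, abs_of_pos (Real.exp_pos _), abs_mul,
    abs_of_nonneg (by positivity : (0:ℝ) ≤ ((n : ℝ) + 1) ^ φ.a)]
  have e : Real.pi * ((n : ℝ) + 1) ^ 2 * v = ((n : ℝ) + 1) ^ 2 * c := by
    rw [hc]; ring
  rw [e]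
  push_cast
  have h3 : Real.exp (-(((n : ℝ) + 1) ^ 2 * c)) ≤ Real.exp (-c * ((n : ℝ) + 1)) := by
    apply Real.exp_le_exp.2
    nlinarith [mul_nonneg (mul_nonneg (by linarith : (0 : ℝ) ≤ (n : ℝ) + 1) h0) hc0.le]
  have h4 : |cf φ d (n + 1)| * ((n : ℝ) + 1) ^ φ.a ≤ ((n : ℝ) + 1) ^ φ.a := by
    have h5 := cf_abs hφ d (n + 1)
    have h6 : (0:ℝ) ≤ ((n : ℝ) + 1) ^ φ.a := by positivity
    nlinarith
  exact mul_le_mul h4 h3 (Real.exp_pos _).le (by positivity)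

theorem meas_vt {φ : FD} (hφ : Fam φ) (d : ℕ) {S : Set ℝ} (hS : MeasurableSet S)
    (hpos : ∀ v ∈ S, 0 < v) : AEStronglyMeasurable (vt φ d) (volume.restrict S) := by
  refine aestronglyMeasurable_of_tendsto_ae (u := (atTop : Filter ℕ))
    (f := fun N v => ∑ n ∈ Finset.range N, cf φ d (n + 1) * ((n : ℝ) + 1) ^ φ.a *
      Real.exp (-(Real.pi * ((n : ℝ) + 1) ^ 2 * v))) (fun N => ?_) ?_
  · refine Continuous.aestronglyMeasurable ?_
    fun_prop
  · rw [ae_restrict_iff' hS]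
    exact Filter.Eventually.of_forall fun v hv => (summable_vt hφ d (hpos v hv)).hasSum.tendsto_sum_nat

/-- Cauchy-Schwarz -/
theorem cs_int {μ : Measure ℝ} {f g : ℝ → ℝ} (hfm : AEStronglyMeasurable f μ)
    (hgm : AEStronglyMeasurable g μ) (hf : Integrable (fun x => f x ^ 2) μ)
    (hg : Integrable (fun x => g x ^ 2) μ) :
    (∫ x, g x * f x ∂μ) ^ 2 ≤ (∫ x, f x ^ 2 ∂μ) * ∫ x, g x ^ 2 ∂μ := by
  have hfg : Integrable (fun x => g x * f x) μ := by
    refine (hf.add hg).mono' (hgm.mul hfm) (Filter.Eventually.of_forall fun x => ?_)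
    rw [Real.norm_eq_abs, abs_le]
    simp only [Pi.add_apply]
    constructor
    · nlinarith [sq_nonneg (f x + g x), sq_nonneg (f x), sq_nonneg (g x)]
    · nlinarith [sq_nonneg (f x - g x), sq_nonneg (f x), sq_nonneg (g x)]
  have key : ∀ t : ℝ, 0 ≤ (∫ x, f x ^ 2 ∂μ) * (t * t) + (2 * ∫ x, g x * f x ∂μ) * t +
      ∫ x, g x ^ 2 ∂μ := by
    intro t
    have h1 : ∫ x, (t * f x + g x) ^ 2 ∂μ = (∫ x, f x ^ 2 ∂μ) * (t * t) +
        (2 * ∫ x, g x * f x ∂μ) * t + ∫ x, g x ^ 2 ∂μ := by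
      have h2 : (fun x => (t * f x + g x) ^ 2) = fun x => (t ^ 2 * f x ^ 2 +
          (2 * t) * (g x * f x)) + g x ^ 2 := by
        funext x; ring
      have h4 : Integrable (fun x => t ^ 2 * f x ^ 2 + (2 * t) * (g x * f x)) μ :=
        (hf.const_mul _).add (hfg.const_mul _)
      rw [h2, integral_add h4 hg,
        integral_add (hf.const_mul _) (hfg.const_mul _), integral_const_mul, integral_const_mul]
      ring
    rw [← h1]
    exact integral_nonneg fun x => sq_nonneg _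
  have h3 := discrim_le_zero key
  unfold discrim at h3
  nlinarith [h3]

/-- The core estimate. -/
theorem core {φ : FD} (hφ : Fam φ) {Y : ℕ} (hY : 3 ≤ Y) {M : ℝ} (hM : 0 ≤ M)
    (hTH : ∀ v : ℝ, 1 / (8 * (Y : ℝ)) ≤ v → ∑ d ∈ Om φ Y, vt φ d v ^ 2 ≤
      M * v ^ (-((φ.a : ℝ) + 1 / 2)) * Real.exp (-v))
    {c x : ℝ} (hx : x = 2 * c + ((φ.a : ℝ) + 1 / 2) / 2) (S : Set ℝ) (hSm : MeasurableSet S)
    (hS : ∀ v ∈ S, 1 / (8 * (Y : ℝ)) ≤ v) (hSi : IntegrableOn (fun v : ℝ => v ^ (2 * c)) S)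
    (T : ℕ → Set ℝ) (hTm : ∀ d, MeasurableSet (T d)) (hT : ∀ d ∈ Om φ Y, T d ⊆ S) (k : ℕ → ℝ)
    (hk : ∀ d, 0 ≤ k d) {W : ℝ} (hW0 : 0 ≤ W)
    (hW : ∀ d ∈ Om φ Y, k d * ∫ v in T d, v ^ (2 * c) ≤ W) :
    ∑ d ∈ Om φ Y, k d * (∫ v in T d, vt φ d v * v ^ x) ^ 2 ≤
      W * (M * ∫ v in S, v ^ (2 * c)) := by
  have hYpos : (0 : ℝ) < Y := by exact_mod_cast (show 0 < Y by omega)
  have hSpos : ∀ v ∈ S, 0 < v := fun v hv => lt_of_lt_of_le (by positivity) (hS v hv)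
  obtain ⟨G, hG⟩ : ∃ G : ℕ → ℝ → ℝ, G = fun d v => (vt φ d v * v ^ (x - c)) ^ 2 := ⟨_, rfl⟩
  have hGnn : ∀ d v, 0 ≤ G d v := by
    intro d v; rw [hG]; exact sq_nonneg _
  have hsum : ∀ v ∈ S, ∑ d ∈ Om φ Y, G d v ≤ M * v ^ (2 * c) := by
    intro v hv
    have hv0 := hSpos v hv
    have h1 : ∑ d ∈ Om φ Y, G d v = (∑ d ∈ Om φ Y, vt φ d v ^ 2) * (v ^ (x - c)) ^ 2 := by
      rw [hG, Finset.sum_mul]
      exact Finset.sum_congr rfl fun d _ => by ring
    have h2 : (v ^ (x - c)) ^ 2 = v ^ (2 * (x - c)) := by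
      rw [← Real.rpow_natCast, ← Real.rpow_mul hv0.le]
      congr 1
      push_cast
      ring
    rw [h1, h2]
    have h3 : M * v ^ (-((φ.a : ℝ) + 1 / 2)) * Real.exp (-v) ≤
        M * v ^ (-((φ.a : ℝ) + 1 / 2)) * 1 := by
      refine mul_le_mul_of_nonneg_left ?_ (by positivity)
      rw [Real.exp_le_one_iff]
      linarith
    have h4 : (∑ d ∈ Om φ Y, vt φ d v ^ 2) * v ^ (2 * (x - c)) ≤
        M * v ^ (-((φ.a : ℝ) + 1 / 2)) * 1 * v ^ (2 * (x - c)) :=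
      mul_le_mul_of_nonneg_right ((hTH v (hS v hv)).trans h3) (by positivity)
    refine h4.trans (le_of_eq ?_)
    rw [mul_one, mul_assoc, ← Real.rpow_add hv0]
    congr 2
    rw [hx]
    ring
  have hGm : ∀ d, AEStronglyMeasurable (fun v => vt φ d v * v ^ (x - c)) (volume.restrict S) := by
    intro d
    refine (meas_vt hφ d hSm hSpos).mul ?_
    exact (measurable_id.pow_const _).aestronglyMeasurable
  have hGi : ∀ d ∈ Om φ Y, IntegrableOn (G d) S := by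
    intro d hd
    refine (hSi.const_mul M).mono' ?_ ?_
    · rw [hG]
      exact (hGm d).pow 2
    · rw [ae_restrict_iff' hSm]
      refine Filter.Eventually.of_forall fun v hv => ?_
      rw [Real.norm_eq_abs, abs_of_nonneg (hGnn d v)]
      exact (Finset.single_le_sum (fun e _ => hGnn e v) hd).trans (hsum v hv)
  have hone : ∀ d ∈ Om φ Y, k d * (∫ v in T d, vt φ d v * v ^ x) ^ 2 ≤ W * ∫ v in S, G d v := by
    intro d hd
    have hTS := hT d hd
    have h1 : ∫ v in T d, vt φ d v * v ^ x = ∫ v in T d, (vt φ d v * v ^ (x - c)) * v ^ c := by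
      refine setIntegral_congr_fun (hTm d) fun v hv => ?_
      have hv0 := hSpos v (hTS hv)
      rw [mul_assoc, ← Real.rpow_add hv0]
      congr 2
      ring
    have h2 : ∀ v ∈ T d, (v ^ c) ^ 2 = v ^ (2 * c) := by
      intro v hv
      have hv0 := hSpos v (hTS hv)
      rw [← Real.rpow_natCast, ← Real.rpow_mul hv0.le]
      congr 1
      push_cast
      ring
    have h3 : IntegrableOn (fun v : ℝ => (v ^ c) ^ 2) (T d) :=
      (integrableOn_congr_fun h2 (hTm d)).2 (hSi.mono_set hTS)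
    have h4 : IntegrableOn (fun v : ℝ => (vt φ d v * v ^ (x - c)) ^ 2) (T d) := by
      have := (hGi d hd).mono_set hTS
      rw [hG] at this
      exact this
    have h5 := cs_int (μ := volume.restrict (T d)) (f := fun v : ℝ => v ^ c)
      (g := fun v => vt φ d v * v ^ (x - c)) (measurable_id.pow_const _).aestronglyMeasurable
      ((hGm d).mono_measure (Measure.restrict_mono_set _ hTS)) h3 h4
    have h6 : ∫ v in T d, (v ^ c) ^ 2 = ∫ v in T d, v ^ (2 * c) :=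
      setIntegral_congr_fun (hTm d) h2
    have h7 : ∫ v in T d, (vt φ d v * v ^ (x - c)) ^ 2 ≤ ∫ v in S, G d v := by
      have : ∫ v in T d, G d v ≤ ∫ v in S, G d v :=
        setIntegral_mono_set (hGi d hd) (Filter.Eventually.of_forall fun v => hGnn d v)
          (Filter.Eventually.of_forall hTS)
      rw [hG] at this ⊢
      exact this
    have h8 : 0 ≤ ∫ v in T d, (vt φ d v * v ^ (x - c)) ^ 2 := integral_nonneg fun v => sq_nonneg _
    rw [h1]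
    rw [h6] at h5
    calc k d * (∫ v in T d, (vt φ d v * v ^ (x - c)) * v ^ c) ^ 2
        ≤ k d * ((∫ v in T d, v ^ (2 * c)) * ∫ v in T d, (vt φ d v * v ^ (x - c)) ^ 2) :=
          mul_le_mul_of_nonneg_left h5 (hk d)
      _ = (k d * ∫ v in T d, v ^ (2 * c)) * ∫ v in T d, (vt φ d v * v ^ (x - c)) ^ 2 := by ring
      _ ≤ W * ∫ v in T d, (vt φ d v * v ^ (x - c)) ^ 2 :=
          mul_le_mul_of_nonneg_right (hW d hd) h8
      _ ≤ W * ∫ v in S, G d v := mul_le_mul_of_nonneg_left h7 hW0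
  refine (Finset.sum_le_sum hone).trans ?_
  rw [← Finset.mul_sum, ← integral_finsetSum _ hGi]
  refine mul_le_mul_of_nonneg_left ?_ hW0
  rw [← integral_const_mul]
  refine setIntegral_mono_on (integrable_finsetSum _ hGi) (hSi.const_mul M) hSm fun v hv => ?_
  exact hsum v hv

theorem rpow_nn {w δ : ℝ} (h0 : 0 < δ) (h1 : δ ≤ 1 / 4) : 0 ≤ w ^ δ := by
  rcases le_or_gt 0 w with h | h
  · exact Real.rpow_nonneg h δ
  · rw [Real.rpow_def_of_neg h]
    refine mul_nonneg (Real.exp_pos _).le ?_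
    have hp := Real.pi_pos
    apply Real.cos_nonneg_of_neg_pi_div_two_le_of_le
    · nlinarith
    · nlinarith

theorem MSR (h : S_TH2) : S_MSR := by
  intro φ hφ
  obtain ⟨C, hC, hTH⟩ := h φ hφ
  obtain ⟨hr1, hr8⟩ := fam_r hφ
  refine ⟨32 * C, by positivity, fun Y hY δ hδ hδ4 => ?_⟩
  have hYpos : (0 : ℝ) < Y := by exact_mod_cast (show 0 < Y by omega)
  have hY1 : (1 : ℝ) ≤ Y := by exact_mod_cast (show 1 ≤ Y by omega)
  have hlog : 0 ≤ Real.log Y := Real.log_nonneg hY1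
  obtain ⟨M, hM⟩ : ∃ M : ℝ, M = C * Y * Real.log Y ^ 3 := ⟨_, rfl⟩
  have hM0 : 0 ≤ M := by rw [hM]; positivity
  have hTH' : ∀ v : ℝ, 1 / (8 * (Y : ℝ)) ≤ v → ∑ d ∈ Om φ Y, vt φ d v ^ 2 ≤
      M * v ^ (-((φ.a : ℝ) + 1 / 2)) * Real.exp (-v) := by
    intro v hv
    rw [hM]
    exact hTH Y hY v hv
  have hrr : (1 : ℝ) ≤ φ.r := by exact_mod_cast hr1
  have hrr8 : (φ.r : ℝ) ≤ 8 := by exact_mod_cast hr8
  have hOm : ∀ d ∈ Om φ Y, (1 : ℝ) ≤ d ∧ (d : ℝ) ≤ Y ∧ (Y : ℝ) ^ (3 / 4 : ℝ) ≤ d := by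
    intro d hd
    simp only [Om, Finset.mem_filter, Finset.mem_Icc] at hd
    obtain ⟨⟨hd1, hdY⟩, -, -, h34⟩ := hd
    refine ⟨by exact_mod_cast hd1, by exact_mod_cast hdY, ?_⟩
    have hd0 : (0 : ℝ) ≤ d := Nat.cast_nonneg d
    have h34' : (Y : ℝ) ^ 3 ≤ (d : ℝ) ^ 4 := by exact_mod_cast h34
    have e1 : (Y : ℝ) ^ (3 / 4 : ℝ) = ((Y : ℝ) ^ 3) ^ (1 / 4 : ℝ) := by
      rw [← Real.rpow_natCast, ← Real.rpow_mul hYpos.le]
      norm_num
    have e2 : (d : ℝ) = ((d : ℝ) ^ 4) ^ (1 / 4 : ℝ) := by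
      rw [← Real.rpow_natCast, ← Real.rpow_mul hd0]
      norm_num
    rw [e1, e2]
    exact Real.rpow_le_rpow (by positivity) h34' (by norm_num)
  have hq : ∀ d ∈ Om φ Y, 0 < (φ.r : ℝ) * d ∧ (φ.r : ℝ) * d ≤ 8 * Y ∧
      (Y : ℝ) ^ (3 / 4 : ℝ) ≤ (φ.r : ℝ) * d := by
    intro d hd
    obtain ⟨h1, h2, h3⟩ := hOm d hd
    refine ⟨by positivity, mul_le_mul hrr8 h2 (by linarith) (by norm_num), h3.trans ?_⟩
    exact le_mul_of_one_le_left (by linarith) hrr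
  refine ⟨fun w hw4 hw => ?_, ?_⟩
  · -- the first remainder
    rcases Finset.eq_empty_or_nonempty (Om φ Y) with hemp | ⟨d0, hd0⟩
    · rw [hemp, Finset.sum_empty]
      have := rpow_nn (w := w) hδ hδ4
      positivity
    have hw8 : 1 / (8 * (Y : ℝ)) ≤ w := by
      refine le_trans ?_ (hw d0 hd0)
      exact one_div_le_one_div_of_le (hq d0 hd0).1 (hq d0 hd0).2.1
    have hwpos : 0 < w := lt_of_lt_of_le (by positivity) hw8
    have hint : ∀ a : ℝ, 0 < a → a ≤ w →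
        ∫ v in Set.Ioc a w, v ^ (2 * (δ / 4 - 1 / 2)) ≤ 2 / δ * w ^ (δ / 2) := by
      intro a ha haw
      rw [← intervalIntegral.integral_of_le haw, integral_rpow (Or.inl (by linarith))]
      have e1 : 2 * (δ / 4 - 1 / 2) + 1 = δ / 2 := by ring
      rw [e1]
      have h1 : 0 ≤ a ^ (δ / 2) := by positivity
      calc (w ^ (δ / 2) - a ^ (δ / 2)) / (δ / 2) ≤ w ^ (δ / 2) / (δ / 2) := by
            apply div_le_div_of_nonneg_right _ (by positivity)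
            linarith
        _ = _ := by field_simp
    have hmain := core hφ hY hM0 hTH' (c := δ / 4 - 1 / 2) (x := xe φ δ)
      (by unfold xe; ring) (Set.Ioc (1 / (8 * (Y : ℝ))) w) measurableSet_Ioc
      (fun v hv => hv.1.le)
      (intervalIntegral.intervalIntegrable_rpow' (by linarith)).1
      (fun d => Set.Ioc (1 / ((φ.r : ℝ) * d)) w) (fun d => measurableSet_Ioc)
      (fun d hd => Set.Ioc_subset_Ioc_left
        (one_div_le_one_div_of_le (hq d hd).1 (hq d hd).2.1))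
      (fun _ => 1) (fun _ => zero_le_one) (W := 2 / δ * w ^ (δ / 2)) (by positivity)
      (fun d hd => by
        rw [one_mul]
        exact hint _ (one_div_pos.2 (hq d hd).1) (hw d hd))
    have e2 : ∑ d ∈ Om φ Y, R1 φ δ w d ^ 2 = ∑ d ∈ Om φ Y,
        1 * (∫ v in Set.Ioc (1 / ((φ.r : ℝ) * d)) w, vt φ d v * v ^ (xe φ δ)) ^ 2 := by
      refine Finset.sum_congr rfl fun d hd => ?_
      unfold R1
      rw [intervalIntegral.integral_of_le (hw d hd), one_mul]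
    rw [e2]
    refine hmain.trans ?_
    have h3 := hint (1 / (8 * (Y : ℝ))) (by positivity) hw8
    have h4 : w ^ (δ / 2) * w ^ (δ / 2) = w ^ δ := by
      rw [← Real.rpow_add hwpos]
      congr 1
      ring
    have hwd : 0 ≤ w ^ δ := rpow_nn hδ hδ4
    calc 2 / δ * w ^ (δ / 2) * (M * ∫ v in Set.Ioc (1 / (8 * (Y : ℝ))) w,
          v ^ (2 * (δ / 4 - 1 / 2)))
        ≤ 2 / δ * w ^ (δ / 2) * (M * (2 / δ * w ^ (δ / 2))) := by
          refine mul_le_mul_of_nonneg_left (mul_le_mul_of_nonneg_left h3 hM0) (by positivity)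
      _ = 4 * (M * (w ^ (δ / 2) * w ^ (δ / 2) / δ ^ 2)) := by
          field_simp
          ring
      _ = 4 * (M * (w ^ δ / δ ^ 2)) := by rw [h4]
      _ ≤ 32 * (M * (w ^ δ / δ ^ 2)) := by
          have : 0 ≤ M * (w ^ δ / δ ^ 2) := by positivity
          linarith
      _ = _ := by rw [hM]; ring
  · -- the second remainder
    have hint : ∀ a : ℝ, 0 < a →
        ∫ v in Set.Ioi (1 / a), v ^ (2 * (-1 / 2 - δ / 4)) = 2 / δ * a ^ (δ / 2) := by
      intro a ha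
      rw [integral_Ioi_rpow_of_lt (by linarith) (by positivity)]
      have e1 : 2 * (-1 / 2 - δ / 4) + 1 = -(δ / 2) := by ring
      rw [e1, one_div, Real.inv_rpow ha.le, Real.rpow_neg ha.le, inv_inv]
      field_simp
    have hmain := core hφ hY hM0 hTH' (c := -1 / 2 - δ / 4) (x := xe φ (-δ))
      (by unfold xe; ring) (Set.Ioi (1 / (8 * (Y : ℝ)))) measurableSet_Ioi
      (fun v hv => le_of_lt hv)
      (integrableOn_Ioi_rpow_of_lt (by linarith) (by positivity))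
      (fun d => Set.Ioi (1 / ((φ.r : ℝ) * d))) (fun d => measurableSet_Ioi)
      (fun d hd => Set.Ioi_subset_Ioi
        (one_div_le_one_div_of_le (hq d hd).1 (hq d hd).2.1))
      (fun d => (((φ.r : ℝ) * d) ^ (-δ)) ^ 2) (fun _ => sq_nonneg _)
      (W := 2 / δ * (Y : ℝ) ^ (-(9 / 8 * δ))) (by positivity)
      (fun d hd => by
        obtain ⟨hq0, hq8, hq34⟩ := hq d hd
        rw [hint _ hq0]
        have h1 : (((φ.r : ℝ) * d) ^ (-δ)) ^ 2 * (2 / δ * ((φ.r : ℝ) * d) ^ (δ / 2)) =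
            2 / δ * ((φ.r : ℝ) * d) ^ (-(3 / 2 * δ)) := by
          have h2 : (((φ.r : ℝ) * d) ^ (-δ)) ^ 2 = ((φ.r : ℝ) * d) ^ (-(2 * δ)) := by
            rw [← Real.rpow_natCast, ← Real.rpow_mul hq0.le]
            congr 1
            push_cast
            ring
          have h3 : ((φ.r : ℝ) * d) ^ (-(3 / 2 * δ)) =
              ((φ.r : ℝ) * d) ^ (-(2 * δ)) * ((φ.r : ℝ) * d) ^ (δ / 2) := by
            rw [← Real.rpow_add hq0]
            congr 1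
            ring
          rw [h2, h3]
          ring
        rw [h1]
        refine mul_le_mul_of_nonneg_left ?_ (by positivity)
        have h4 : ((φ.r : ℝ) * d) ^ (-(3 / 2 * δ)) ≤ ((Y : ℝ) ^ (3 / 4 : ℝ)) ^ (-(3 / 2 * δ)) :=
          Real.rpow_le_rpow_of_nonpos (by positivity) hq34 (by linarith)
        refine h4.trans (le_of_eq ?_)
        rw [← Real.rpow_mul hYpos.le]
        congr 1
        ring)
    have e2 : ∑ d ∈ Om φ Y, R2 φ δ d ^ 2 = ∑ d ∈ Om φ Y, (((φ.r : ℝ) * d) ^ (-δ)) ^ 2 *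
        (∫ v in Set.Ioi (1 / ((φ.r : ℝ) * d)), vt φ d v * v ^ (xe φ (-δ))) ^ 2 := by
      refine Finset.sum_congr rfl fun d hd => ?_
      unfold R2
      rw [mul_pow]
    rw [e2]
    refine hmain.trans ?_
    rw [hint (8 * (Y : ℝ)) (by positivity)]
    have h5 : (8 * (Y : ℝ)) ^ (δ / 2) ≤ 8 * (Y : ℝ) ^ (δ / 2) := by
      rw [Real.mul_rpow (by norm_num) hYpos.le]
      refine mul_le_mul_of_nonneg_right ?_ (by positivity)
      calc (8 : ℝ) ^ (δ / 2) ≤ (8 : ℝ) ^ (1 : ℝ) :=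
            Real.rpow_le_rpow_of_exponent_le (by norm_num) (by linarith)
        _ = 8 := Real.rpow_one _
    have h6 : (Y : ℝ) ^ (-(9 / 8 * δ)) * (Y : ℝ) ^ (δ / 2) ≤ (Y : ℝ) ^ (-(δ / 2)) := by
      rw [← Real.rpow_add hYpos]
      exact Real.rpow_le_rpow_of_exponent_le hY1 (by linarith)
    calc 2 / δ * (Y : ℝ) ^ (-(9 / 8 * δ)) * (M * (2 / δ * (8 * (Y : ℝ)) ^ (δ / 2)))
        ≤ 2 / δ * (Y : ℝ) ^ (-(9 / 8 * δ)) * (M * (2 / δ * (8 * (Y : ℝ) ^ (δ / 2)))) := by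
          refine mul_le_mul_of_nonneg_left (mul_le_mul_of_nonneg_left
            (mul_le_mul_of_nonneg_left h5 (by positivity)) hM0) (by positivity)
      _ = 32 * M / δ ^ 2 * ((Y : ℝ) ^ (-(9 / 8 * δ)) * (Y : ℝ) ^ (δ / 2)) := by
          field_simp
          ring
      _ ≤ 32 * M / δ ^ 2 * (Y : ℝ) ^ (-(δ / 2)) :=
          mul_le_mul_of_nonneg_left h6 (by positivity)
      _ = _ := by rw [hM]; ring

end

end Pool.Agent.Y606.TQ.Msr
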